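import Mathlib

namespace Pool.Agent.H11.Lef

open MvPolynomial

variable {K : Type} [Field K] {V : Type} [Fintype V]

/-- The Stanley–Reisner ideal of the complex with face set `Δ`. -/
noncomputable def faceIdeal (K : Type) [Field K] {V : Type} (Δ : Set (Finset V)) : Ideal (MvPolynomial V K) :=
  Ideal.span {m | ∃ s : Finset V, s ∉ Δ ∧ m = ∏ v ∈ s, X v}

/-- The ideal generated by the moment-curve system `θ_j = ∑_v t_v^j x_v`, `j = 1, …, d`. -/
noncomputable def momentIdeal (d : ℕ) (t : V → K) : Ideal (MvPolynomial V K) :=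
  Ideal.span {θ | ∃ j : ℕ, 1 ≤ j ∧ j ≤ d ∧ θ = ∑ v, C (t v ^ j) * X v}

/-- The degree-`k` part of the quotient of the polynomial ring by `I`. -/
def piece {V : Type} (I : Ideal (MvPolynomial V K)) (k : ℕ) : Set (MvPolynomial V K ⧸ I) :=
  Ideal.Quotient.mk I '' {p | p.IsHomogeneous k}

/-- The hard Lefschetz property of the quotient by `I`, with top degree `d`. -/
def Lefschetz {V : Type} (I : Ideal (MvPolynomial V K)) (d : ℕ) : Prop :=
  ∃ l ∈ piece I 1, ∀ k : ℕ, 2 * k ≤ d →
    Set.BijOn (fun a => l ^ (d - 2 * k) * a) (piece I k) (piece I (d - k))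

/-- The boundary complex of the octahedron: vertices `±e_a`, faces the sets with no antipodal
pair. -/
def octahedron : Set (Finset (Fin 3 × Bool)) :=
  {s | ∀ a : Fin 3, ¬ ((a, true) ∈ s ∧ (a, false) ∈ s)}

end Pool.Agent.H11.Lef
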