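import Mathlib
import Pool.Agent.H11.Lef.Defs

namespace Pool.Agent.H11.Lef

open MvPolynomial

lemma cubes {A : Type} [CommRing A] (h3 : (3 : A) = 0) (i x0 x1 x2 y0 y1 y2 : A) (hi : i ^ 2 = -1)
    (e0 : x0 * y0 = 0) (e1 : x1 * y1 = 0) (e2 : x2 * y2 = 0)
    (t1 : (0 + i) * x0 + (0 - i) * y0 + (1 + i) * x1 + (1 - i) * y1 + (2 + i) * x2 + (2 - i) * y2 = 0)
    (t2 : (0 + i)^2 * x0 + (0 - i)^2 * y0 + (1 + i)^2 * x1 + (1 - i)^2 * y1 + (2 + i)^2 * x2 + (2 - i)^2 * y2 = 0)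
    (t3 : (0 + i)^3 * x0 + (0 - i)^3 * y0 + (1 + i)^3 * x1 + (1 - i)^3 * y1 + (2 + i)^3 * x2 + (2 - i)^3 * y2 = 0) :
    x0 ^ 3 = 0 ∧ x1^3 = 0 ∧ x2^3 = 0 ∧ y0^3 = 0 ∧ y1^3 = 0 ∧ y2^3 = 0 := by
  have hy0 : y0 = (-1)*x0 + (-1)*i*x2 + (1)*i*x1 := by
    linear_combination ((-1)*i) * t1 + ((-1)) * t2 + ((-1)*i) * t3 + ((-11)*y2 + (-2)*y1 + (1)*y0 + (13)*x2 + (4)*x1 + (1)*x0 + (6)*i*y2 + (3)*i*y1 + (6)*i*x2 + (3)*i*x1 + (-1)*i^2*y2 + (-1)*i^2*y1 + (-1)*i^2*y0 + (1)*i^2*x2 + (1)*i^2*x1 + (1)*i^2*x0) * hi + ((5)*y2 + (1)*y1 + (-3)*x2 + (-1)*x1 + (-1)*i*y1 + (3)*i*x2) * h3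
  have hy1 : y1 = (1)*x2 + (1)*x0 + (-1)*i*x2 + (1)*i*x1 := by
    linear_combination ((1)) * t1 + ((-1)) * t2 + ((1) + (1)*i) * t3 + ((6)*y2 + (-16)*x2 + (-4)*x1 + (2)*x0 + (-5)*i*y2 + (-2)*i*y1 + (1)*i*y0 + (-7)*i*x2 + (-4)*i*x1 + (-1)*i*x0 + (1)*i^2*y2 + (1)*i^2*y1 + (1)*i^2*y0 + (-1)*i^2*x2 + (-1)*i^2*x1 + (-1)*i^2*x0) * hi + ((-4)*y2 + (3)*x2 + (1)*x1 + (-1)*x0 + (2)*i*y2 + (1)*i*y1 + (-3)*i*x2) * h3
  have hy2 : y2 = (1)*x1 + (1)*x0 + (-1)*i*x2 + (1)*i*x1 := by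
    linear_combination ((-1)) * t1 + ((-1)) * t2 + ((-1) + (1)*i) * t3 + ((18)*y2 + (6)*y1 + (-4)*x2 + (2)*x1 + (2)*x0 + (-7)*i*y2 + (-4)*i*y1 + (-1)*i*y0 + (-5)*i*x2 + (-2)*i*x1 + (1)*i*x0 + (1)*i^2*y2 + (1)*i^2*y1 + (1)*i^2*y0 + (-1)*i^2*x2 + (-1)*i^2*x1 + (-1)*i^2*x0) * hi + ((-1)*y2 + (-1)*y1 + (6)*x2 + (-1)*x0 + (-6)*i*y2 + (-1)*i*y1 + (5)*i*x2 + (2)*i*x1) * h3
  subst hy0 hy1 hy2
  have hx0 : x0 ^ 3 = 0 := by
    linear_combination ((-1)*x0 + (-1)*i*x2 + (1)*i*x1) * e0 + ((-1)*i*x0) * e1 + ((1)*i*x0) * e2 + (0) * hi + ((-1)*i*x0^2*x2 + (1)*i*x0^2*x1) * h3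
  have hx1 : x1 ^ 3 = 0 := by
    linear_combination ((-1)*x1) * e0 + ((-1)*x2 + (-1)*x0 + (1)*i*x2 + (-1)*i*x1) * e1 + ((-1)*x1) * e2 + ((1)*x1*x2^2 + (-2)*x1^2*x2 + (1)*x1^3) * hi + ((1)*x1^2*x2 + (1)*x0*x1*x2 + (-1)*i*x1*x2^2 + (1)*i*x1^2*x2 + (-1)*i*x0*x1*x2 + (1)*i*x0*x1^2) * h3
  have hx2 : x2 ^ 3 = 0 := by
    linear_combination ((-1)*x2) * e0 + ((-1)*x2) * e1 + ((-1)*x1 + (-1)*x0 + (1)*i*x2 + (-1)*i*x1) * e2 + ((1)*x2^3 + (-2)*x1*x2^2 + (1)*x1^2*x2) * hi + ((1)*x1*x2^2 + (1)*x0*x1*x2 + (-1)*i*x1*x2^2 + (1)*i*x1^2*x2 + (-1)*i*x0*x2^2 + (1)*i*x0*x1*x2) * h3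
  refine ⟨hx0, hx1, hx2, ?_, ?_, ?_⟩
  · linear_combination ((-1)) * hx0 + ((1)*i^3) * hx1 + ((-1)*i^3) * hx2 + ((-3)*x0*x2^2 + (6)*x0*x1*x2 + (-3)*x0*x1^2 + (3)*i*x1*x2^2 + (-3)*i*x1^2*x2) * hi + ((1)*x0*x2^2 + (-2)*x0*x1*x2 + (1)*x0*x1^2 + (-1)*i*x1*x2^2 + (1)*i*x1^2*x2 + (-1)*i*x0^2*x2 + (1)*i*x0^2*x1) * h3
  · linear_combination ((1)) * hx0 + ((1)*i^3) * hx1 + ((1) + (-3)*i + (3)*i^2 + (-1)*i^3) * hx2 + ((-6)*x1*x2^2 + (3)*x1^2*x2 + (3)*x0*x2^2 + (-6)*x0*x1*x2 + (3)*x0*x1^2 + (3)*i*x1*x2^2 + (-3)*i*x1^2*x2) * hi + ((2)*x1*x2^2 + (-1)*x1^2*x2 + (2)*x0*x1*x2 + (-1)*x0*x1^2 + (1)*x0^2*x2 + (1)*i*x1^2*x2 + (-2)*i*x0*x2^2 + (2)*i*x0*x1*x2 + (-1)*i*x0^2*x2 + (1)*i*x0^2*x1) * h3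
  · linear_combination ((1)) * hx0 + ((1) + (3)*i + (3)*i^2 + (1)*i^3) * hx1 + ((-1)*i^3) * hx2 + ((3)*x1*x2^2 + (-6)*x1^2*x2 + (3)*x0*x2^2 + (-6)*x0*x1*x2 + (3)*x0*x1^2 + (3)*i*x1*x2^2 + (-3)*i*x1^2*x2) * hi + ((-1)*x1*x2^2 + (2)*x1^2*x2 + (-1)*x0*x2^2 + (2)*x0*x1*x2 + (1)*x0^2*x1 + (-1)*i*x1*x2^2 + (-2)*i*x0*x1*x2 + (2)*i*x0*x1^2 + (-1)*i*x0^2*x2 + (1)*i*x0^2*x1) * h3

theorem main (K : Type) [Field K] [CharP K 3] (i : K) (hi : i ^ 2 = -1) :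
    ∃ t : Fin 3 × Bool → K, Function.Injective t ∧ (∀ v, t v ≠ 0) ∧
      ¬ Lefschetz (faceIdeal K octahedron ⊔ momentIdeal 3 t) 3 := by
  classical
  have h3 : (3 : K) = 0 := by exact_mod_cast CharP.cast_eq_zero K 3
  have hs : ∀ a b : ℤ, (a : K) + b * i = 0 → (a ^ 2 + b ^ 2 : ℤ) % 3 = 0 := by
    intro a b h
    have h1 : ((a ^ 2 + b ^ 2 : ℤ) : K) = 0 := by
      push_cast
      linear_combination ((a : K) - b * i) * h + (b : K) ^ 2 * hi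
    have := (CharP.intCast_eq_zero_iff K 3 _).mp h1
    exact Int.emod_eq_zero_of_dvd (by exact_mod_cast this)
  set t : Fin 3 × Bool → K := fun v => ((v.1 : ℕ) : K) + if v.2 then i else -i with ht
  refine ⟨t, ?_, ?_, ?_⟩
  · rintro ⟨a, b⟩ ⟨c, d⟩ h
    have := hs ((a : ℕ) - (c : ℕ)) ((if b then 1 else -1) - (if d then 1 else -1)) (by
      simp only [ht] at h
      cases b <;> cases d <;> simp only [Bool.false_eq_true, if_false, if_true] at h ⊢ <;>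
        push_cast <;> linear_combination h)
    revert this
    fin_cases a <;> fin_cases c <;> cases b <;> cases d <;> simp
  · rintro ⟨a, b⟩ h
    have := hs (a : ℕ) (if b then 1 else -1) (by
      simp only [ht] at h
      cases b <;> simp only [Bool.false_eq_true, if_false, if_true] at h ⊢ <;>
        push_cast <;> linear_combination h)
    revert this
    fin_cases a <;> cases b <;> simp
  · set I := faceIdeal K octahedron ⊔ momentIdeal 3 t with hI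
    rintro ⟨l, ⟨p, hp, rfl⟩, hl⟩
    have h3' : (3 : MvPolynomial (Fin 3 × Bool) K ⧸ I) = 0 := by
      have : (3 : MvPolynomial (Fin 3 × Bool) K ⧸ I) = Ideal.Quotient.mk I (C 3) := by
        rw [map_ofNat, map_ofNat]
      rw [this, h3]; simp
    set f := Ideal.Quotient.mk I with hf
    have hE : ∀ a : Fin 3, f (X (a, true)) * f (X (a, false)) = 0 := by
      intro a
      rw [← map_mul, hf, Ideal.Quotient.eq_zero_iff_mem]
      apply Ideal.mem_sup_left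
      apply Ideal.subset_span
      refine ⟨{(a, true), (a, false)}, fun h => h a (by simp), ?_⟩
      rw [Finset.prod_pair (by simp)]
    have hT : ∀ j, 1 ≤ j → j ≤ 3 →
        (0 + f (C i)) ^ j * f (X (0, true)) + (0 - f (C i)) ^ j * f (X (0, false)) +
        (1 + f (C i)) ^ j * f (X (1, true)) + (1 - f (C i)) ^ j * f (X (1, false)) +
        (2 + f (C i)) ^ j * f (X (2, true)) + (2 - f (C i)) ^ j * f (X (2, false)) = 0 := by
      intro j h1 h2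
      have h0 : f (∑ v, C (t v ^ j) * X v) = 0 := by
        rw [hf, Ideal.Quotient.eq_zero_iff_mem]
        apply Ideal.mem_sup_right
        exact Ideal.subset_span ⟨j, h1, h2, rfl⟩
      rw [Fintype.sum_prod_type, Fin.sum_univ_three] at h0
      simp only [Fintype.sum_bool, ht, map_add, map_mul, map_pow, map_neg, map_natCast, if_true,
        Bool.false_eq_true, if_false, Fin.val_zero, Fin.val_one, Fin.val_two, Nat.cast_zero,
        Nat.cast_one, Nat.cast_ofNat, map_zero, map_one, map_ofNat] at h0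
      simp only [sub_eq_add_neg]
      linear_combination h0
    have hi' : f (C i) ^ 2 = -1 := by
      rw [← map_pow, ← map_pow, hi]; simp
    obtain ⟨c0, c1, c2, c3, c4, c5⟩ := cubes h3' (f (C i)) _ _ _ _ _ _ hi' (hE 0) (hE 1) (hE 2)
      (by simpa only [pow_one] using hT 1 (by norm_num) (by norm_num))
      (hT 2 (by norm_num) (by norm_num)) (hT 3 (by norm_num) (by norm_num))
    have hX : ∀ v, f (X v) ^ 3 = 0 := by
      rintro ⟨a, b⟩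
      fin_cases a <;> cases b <;> assumption
    have hp' : p ∈ Submodule.span K (Set.range (X : Fin 3 × Bool → MvPolynomial (Fin 3 × Bool) K)) := by
      rw [← homogeneousSubmodule_one_eq_span_X]; exact hp
    have hl3 : f p ^ 3 = 0 := by
      clear hp hl
      induction hp' using Submodule.span_induction with
      | mem x hx => obtain ⟨v, rfl⟩ := hx; exact hX v
      | zero => simp
      | add x y _ _ hx hy =>
        rw [map_add]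
        linear_combination hx + hy + (f x ^ 2 * f y + f x * f y ^ 2) * h3'
      | smul a x _ hx =>
        rw [smul_eq_C_mul, map_mul, mul_pow, hx, mul_zero]
    have hinj := (hl 0 (by norm_num)).injOn (x₁ := 1) (x₂ := 0)
      ⟨1, isHomogeneous_one _ _, by simp⟩ ⟨0, isHomogeneous_zero _ _ _, by simp⟩
      (by simp [hl3])
    have h1 : (1 : MvPolynomial (Fin 3 × Bool) K) ∈ I := by
      rw [← Ideal.Quotient.eq_zero_iff_mem, map_one]; exact hinj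
    have hle : I ≤ RingHom.ker (constantCoeff : MvPolynomial (Fin 3 × Bool) K →+* K) := by
      refine sup_le ?_ ?_
      · refine Ideal.span_le.mpr ?_
        rintro _ ⟨s, hs, rfl⟩
        have hne : s.Nonempty := by
          rw [Finset.nonempty_iff_ne_empty]
          rintro rfl
          exact hs (fun a => by simp)
        obtain ⟨v, hv⟩ := hne
        simp only [SetLike.mem_coe, RingHom.mem_ker, map_prod]
        exact Finset.prod_eq_zero hv (by simp)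
      · refine Ideal.span_le.mpr ?_
        rintro _ ⟨j, -, -, rfl⟩
        simp [RingHom.mem_ker]
    have := hle h1
    simp at this

end Pool.Agent.H11.Lef
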